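import Pool.Agent.W223.RA.Stms

/-! Project RA: the count for light sets. -/

namespace Pool.Agent.W291.RA.FL

open Finset Pool.Agent.W223.RA

noncomputable section

theorem asym (ε : ℝ) (hε : 0 < ε) : ∃ X₀ : ℝ, 3 ≤ X₀ ∧ ∀ X : ℝ, X₀ ≤ X →
    12 ≤ Real.log X ^ ((9 : ℝ) / 4) ∧ 12 ≤ Real.log X ∧
    (33 * Real.log X + 1) *
      (2 : ℝ) ^ ((105 : ℝ) * (Real.log X / (10 * Real.log (Real.log X)) + 1)) ≤ X ^ ε := by
  have h1 : ∀ᶠ t : ℝ in Filter.atTop, 12 ≤ t := Filter.eventually_ge_atTop 12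
  have h2 : ∀ᶠ t : ℝ in Filter.atTop, ‖Real.log t‖ ≤ ε / 6 * ‖id t‖ :=
    Real.isLittleO_log_id_atTop.bound (by positivity)
  have h3 : ∀ᶠ t : ℝ in Filter.atTop, Real.log 34 ≤ ε / 6 * t := by
    filter_upwards [Filter.eventually_ge_atTop (Real.log 34 / (ε / 6))] with t ht
    rw [div_le_iff₀ (by positivity)] at ht
    linarith
  have h4 : ∀ᶠ t : ℝ in Filter.atTop, 105 * Real.log 2 * 3 / (10 * ε) ≤ Real.log t :=
    Real.tendsto_log_atTop.eventually_ge_atTop _
  have h5 : ∀ᶠ t : ℝ in Filter.atTop, 105 * Real.log 2 ≤ ε / 3 * t := by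
    filter_upwards [Filter.eventually_ge_atTop (105 * Real.log 2 / (ε / 3))] with t ht
    rw [div_le_iff₀ (by positivity)] at ht
    linarith
  have h6 := Real.tendsto_log_atTop.eventually ((h1.and h2).and ((h3.and h4).and h5))
  obtain ⟨X₁, hX₁⟩ := Filter.eventually_atTop.1 h6
  refine ⟨max 3 X₁, le_max_left _ _, fun X hX => ?_⟩
  obtain ⟨⟨g1, g2⟩, ⟨g3, g4⟩, g5⟩ := hX₁ X (le_trans (le_max_right _ _) hX)
  have hX3 : 3 ≤ X := le_trans (le_max_left _ _) hX
  have hXpos : 0 < X := by linarith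
  set t := Real.log X with ht
  have htpos : 0 < t := by linarith
  refine ⟨?_, g1, ?_⟩
  · calc (12 : ℝ) ≤ t := g1
      _ = t ^ (1 : ℝ) := (Real.rpow_one t).symm
      _ ≤ t ^ ((9 : ℝ) / 4) := Real.rpow_le_rpow_of_exponent_le (by linarith) (by norm_num)
  · have hlt : 0 < Real.log t := Real.log_pos (by linarith)
    have hXe : X ^ ε = Real.exp (ε * t) := by
      rw [Real.rpow_def_of_pos hXpos, mul_comm]
    rw [hXe, Real.rpow_def_of_pos (by norm_num : (0 : ℝ) < 2)]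
    have e1 : 33 * t + 1 ≤ Real.exp (ε / 3 * t) := by
      have e0 : 33 * t + 1 ≤ 34 * t := by linarith
      have e2 : 34 * t = Real.exp (Real.log 34 + Real.log t) := by
        rw [Real.exp_add, Real.exp_log (by norm_num), Real.exp_log htpos]
      rw [Real.norm_of_nonneg hlt.le, id, Real.norm_of_nonneg htpos.le] at g2
      calc 33 * t + 1 ≤ 34 * t := e0
        _ = Real.exp (Real.log 34 + Real.log t) := e2
        _ ≤ Real.exp (ε / 3 * t) := Real.exp_le_exp.2 (by linarith)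
    have e3 : Real.log 2 * (105 * (t / (10 * Real.log t) + 1)) ≤ ε / 3 * t + ε / 3 * t := by
      have hl2 : 0 < Real.log 2 := Real.log_pos (by norm_num)
      have e4 : Real.log 2 * (105 * (t / (10 * Real.log t))) ≤ ε / 3 * t := by
        have : 105 * Real.log 2 * 3 ≤ Real.log t * (10 * ε) := by
          rwa [div_le_iff₀ (by positivity)] at g4
        have e5 : Real.log 2 * (105 * (t / (10 * Real.log t))) =
            (105 * Real.log 2 * t) / (10 * Real.log t) := by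
          field_simp
        rw [e5, div_le_iff₀ (by positivity)]
        nlinarith
      nlinarith
    calc (33 * t + 1) * Real.exp (Real.log 2 * (105 * (t / (10 * Real.log t) + 1)))
        ≤ Real.exp (ε / 3 * t) * Real.exp (ε / 3 * t + ε / 3 * t) :=
          mul_le_mul e1 (Real.exp_le_exp.2 e3) (Real.exp_pos _).le (Real.exp_pos _).le
      _ = Real.exp (ε * t) := by
          rw [← Real.exp_add]; congr 1; ring

theorem prod_facts {a b : ℕ} (h : Trip a b) :
    N3 a b ≠ 0 ∧ Real.log (N3 a b : ℝ) =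
      ∑ p ∈ (N3 a b).primeFactors, ((N3 a b).factorization p : ℝ) * Real.log p := by
  have hne : N3 a b ≠ 0 := by
    unfold N3
    have := h.1
    have := h.2.1
    have ha : a ≠ 0 := by omega
    have hb : b ≠ 0 := by omega
    have hc : a + b ≠ 0 := by omega
    exact mul_ne_zero (mul_ne_zero ha hb) hc
  refine ⟨hne, ?_⟩
  conv_lhs => rw [← Nat.prod_factorization_pow_eq_self hne]
  rw [Finsupp.prod, Nat.support_factorization, Nat.cast_prod, Real.log_prod]
  · refine Finset.sum_congr rfl fun p _ => ?_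
    rw [Nat.cast_pow, Real.log_pow]
  · intro p hp
    have : p.Prime := Nat.prime_of_mem_primeFactors hp
    have := this.pos
    positivity

/-- The set of the gap principle. -/
def GS (S : Finset ℕ) (ℓ : ℝ) : Set (ℕ × ℕ) :=
  {x : ℕ × ℕ | Trip x.1 x.2 ∧ Scale ℓ x.1 x.2 ∧ Light S x.1 x.2}

theorem cover (δ X : ℝ) (hδ0 : 0 < δ) (hδ : δ < 1 / 3) (hX : 3 ≤ X)
    (hT : 12 ≤ Real.log X ^ ((9 : ℝ) / 4)) (R : ℕ)
    (hR : R ∈ RadSet X (fun a b => Real.log X ^ ((9 : ℝ) / 4) ≤ Real.log ((a + b : ℕ) : ℝ) ∧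
      Real.log ((a + b : ℕ) : ℝ) ≤ X ^ δ ∧
      ∃ s ⊆ (N3 a b).primeFactors,
      ∑ p ∈ s, ((N3 a b).factorization p : ℝ) * Real.log p ≤
        7 / 8 * Real.log ((a + b : ℕ) : ℝ) ∧
      (1 - 3 * δ) / 10 * ∑ p ∈ (N3 a b).primeFactors, Real.log p ≤ ∑ p ∈ s, Real.log p)) :
    ∃ m ∈ (Finset.Icc 1 ⌊X ^ (1 - (1 - 3 * δ) / 10)⌋₊).filter
        (fun m => (m.primeFactors.card : ℝ) ≤ Real.log X / (10 * Real.log (Real.log X))),
      ∃ i ∈ Finset.range (⌊33 * Real.log X⌋₊ + 1),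
        R ∈ (fun x : ℕ × ℕ => ∏ p ∈ (N3 x.1 x.2).primeFactors, p) ''
          GS m.primeFactors (Real.log X ^ ((9 : ℝ) / 4) * (33 / 32) ^ i) := by
  obtain ⟨hRX, hRw, a, b, htr, hprod, hLT, hLX, s, hs, hs1, hs2⟩ := hR
  obtain ⟨hne, hlog⟩ := prod_facts htr
  set P := (N3 a b).primeFactors with hP
  have hPp : ∀ p ∈ P, p.Prime := fun p hp => Nat.prime_of_mem_primeFactors hp
  have hSp : ∀ p ∈ P \ s, p.Prime := fun p hp => hPp p (Finset.sdiff_subset hp)
  have hmpf : (∏ p ∈ P \ s, p).primeFactors = P \ s := Nat.primeFactors_prod hSp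
  have hRpf : R.primeFactors = P := by rw [← hprod]; exact Nat.primeFactors_prod hPp
  have hXpos : 0 < X := by linarith
  -- logs
  have hlogR : Real.log R = ∑ p ∈ P, Real.log p := by
    rw [← hprod, Nat.cast_prod, Real.log_prod]
    intro p hp
    have := (hPp p hp).pos
    positivity
  have hlogm : Real.log ((∏ p ∈ P \ s, p : ℕ) : ℝ) = ∑ p ∈ P \ s, Real.log p := by
    rw [Nat.cast_prod, Real.log_prod]
    intro p hp
    have := (hSp p hp).pos
    positivity
  have hRpos : 0 < R := by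
    rw [← hprod]; exact Finset.prod_pos fun p hp => (hPp p hp).pos
  have hmpos : 0 < ∏ p ∈ P \ s, p := Finset.prod_pos fun p hp => (hSp p hp).pos
  have hsplit : ∑ p ∈ P \ s, Real.log p + ∑ p ∈ s, Real.log p = ∑ p ∈ P, Real.log p :=
    Finset.sum_sdiff hs
  have hη : 0 < (1 - 3 * δ) / 10 := by
    have : 0 < 1 - 3 * δ := by linarith
    positivity
  have hη1 : (1 - 3 * δ) / 10 < 1 := by linarith
  have hlogRX : Real.log R ≤ Real.log X :=
    Real.log_le_log (by exact_mod_cast hRpos) hRX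
  have hmX : ((∏ p ∈ P \ s, p : ℕ) : ℝ) ≤ X ^ (1 - (1 - 3 * δ) / 10) := by
    rw [Real.le_rpow_iff_log_le (by exact_mod_cast hmpos) hXpos, hlogm]
    have h1 : ∑ p ∈ P \ s, Real.log p ≤ (1 - (1 - 3 * δ) / 10) * ∑ p ∈ P, Real.log p := by
      linarith
    rw [← hlogR] at h1
    refine h1.trans ?_
    exact mul_le_mul_of_nonneg_left hlogRX (by linarith)
  -- the scale
  set T := Real.log X ^ ((9 : ℝ) / 4) with hTdef
  have hTpos : 0 < T := by linarith
  set L := Real.log ((a + b : ℕ) : ℝ) with hLdef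
  obtain ⟨i, hi1, hi2⟩ := exists_nat_pow_near (x := L / T) (y := (33 / 32 : ℝ))
    ((one_le_div hTpos).2 hLT) (by norm_num)
  have hi1' : T * (33 / 32) ^ i ≤ L := by
    rw [le_div_iff₀ hTpos] at hi1
    linarith
  have hi2' : L ≤ 33 / 32 * (T * (33 / 32) ^ i) := by
    rw [div_lt_iff₀ hTpos, pow_succ] at hi2
    nlinarith
  have hiX : (33 / 32 : ℝ) ^ i ≤ X := by
    have h1 : L / T ≤ X := by
      rw [div_le_iff₀ hTpos]
      have h2 : X ^ δ ≤ X ^ (1 : ℝ) :=
        Real.rpow_le_rpow_of_exponent_le (by linarith) (by linarith)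
      rw [Real.rpow_one] at h2
      nlinarith
    linarith
  have hilog : (i : ℝ) ≤ 33 * Real.log X := by
    have h1 : Real.log ((33 / 32 : ℝ) ^ i) ≤ Real.log X := Real.log_le_log (by positivity) hiX
    rw [Real.log_pow] at h1
    have h2 : 1 - (33 / 32 : ℝ)⁻¹ ≤ Real.log (33 / 32) := Real.one_sub_inv_le_log_of_pos (by norm_num)
    have h3 : (1 : ℝ) / 33 ≤ Real.log (33 / 32) := by
      refine le_trans ?_ h2; norm_num
    have h4 : (i : ℝ) * (1 / 33) ≤ (i : ℝ) * Real.log (33 / 32) :=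
      mul_le_mul_of_nonneg_left h3 (Nat.cast_nonneg i)
    linarith
  refine ⟨∏ p ∈ P \ s, p, ?_, i, ?_, ?_⟩
  · rw [Finset.mem_filter, Finset.mem_Icc]
    refine ⟨⟨hmpos, Nat.le_floor hmX⟩, ?_⟩
    rw [hmpf]
    rw [hRpf] at hRw
    refine le_trans ?_ hRw
    exact_mod_cast Finset.card_le_card Finset.sdiff_subset
  · rw [Finset.mem_range]
    exact Nat.lt_succ_of_le (Nat.le_floor hilog)
  · refine ⟨(a, b), ⟨htr, ⟨hi1', hi2'⟩, ?_⟩, ?_⟩
    · rw [hmpf]
      show Real.log (N3 a b : ℝ) - 7 / 8 * L ≤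
        ∑ q ∈ P \ s, ((N3 a b).factorization q : ℝ) * Real.log q
      have h1 : ∑ q ∈ P \ s, ((N3 a b).factorization q : ℝ) * Real.log q +
          ∑ q ∈ s, ((N3 a b).factorization q : ℝ) * Real.log q =
          ∑ q ∈ P, ((N3 a b).factorization q : ℝ) * Real.log q := Finset.sum_sdiff hs
      rw [hlog]
      linarith
    · exact hprod

theorem tFL (hGAP : Pool.Agent.W223.RA.StmtGAP) : Pool.Agent.W223.RA.StmtFL := by
  intro δ hδ0 hδ
  have hε : 0 < (1 - 3 * δ) / 110 := by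
    have : 0 < 1 - 3 * δ := by linarith
    positivity
  obtain ⟨X₀, hX₀, hasym⟩ := asym _ hε
  refine ⟨X₀, hX₀, fun X hX => ?_⟩
  obtain ⟨hT, hL, hfin⟩ := hasym X hX
  have hX3 : 3 ≤ X := le_trans hX₀ hX
  have hXpos : 0 < X := by linarith
  set Mset := (Finset.Icc 1 ⌊X ^ (1 - (1 - 3 * δ) / 10)⌋₊).filter
        (fun m => (m.primeFactors.card : ℝ) ≤ Real.log X / (10 * Real.log (Real.log X))) with hM
  set g : ℕ × ℕ → ℕ := fun x => ∏ p ∈ (N3 x.1 x.2).primeFactors, p with hg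
  set w : ℝ := Real.log X / (10 * Real.log (Real.log X)) with hw
  have hw0 : 0 ≤ w := by
    have : 0 < Real.log (Real.log X) := Real.log_pos (by linarith)
    have : 0 < Real.log X := by linarith
    positivity
  set W := ⌊w⌋₊ with hW
  have hG : ∀ m ∈ Mset, ∀ i : ℕ,
      (GS m.primeFactors (Real.log X ^ ((9 : ℝ) / 4) * (33 / 32) ^ i)).Finite ∧
      (GS m.primeFactors (Real.log X ^ ((9 : ℝ) / 4) * (33 / 32) ^ i)).ncard ≤
        2 ^ (105 * (W + 1)) := by
    intro m hm i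
    rw [hM, Finset.mem_filter] at hm
    have h12 : (12 : ℝ) ≤ Real.log X ^ ((9 : ℝ) / 4) * (33 / 32) ^ i := by
      have : (1 : ℝ) ≤ (33 / 32) ^ i := one_le_pow₀ (by norm_num)
      nlinarith
    obtain ⟨h1, h2⟩ := hGAP m.primeFactors _
      (fun q hq => Nat.prime_of_mem_primeFactors hq) h12
    refine ⟨h1, h2.trans ?_⟩
    refine Nat.pow_le_pow_right (by norm_num) ?_
    have : m.primeFactors.card ≤ W := Nat.le_floor hm.2
    omega
  set U : Set ℕ := ⋃ m ∈ Mset, ⋃ i ∈ Finset.range (⌊33 * Real.log X⌋₊ + 1),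
    g '' GS m.primeFactors (Real.log X ^ ((9 : ℝ) / 4) * (33 / 32) ^ i) with hU
  have hUfin : U.Finite := by
    rw [hU]
    refine Set.Finite.biUnion (Finset.finite_toSet _) fun m hm => ?_
    refine Set.Finite.biUnion (Finset.finite_toSet _) fun i _ => ?_
    exact ((hG m hm i).1).image g
  have hBpow : ((2 ^ (105 * (W + 1)) : ℕ) : ℝ) ≤ (2 : ℝ) ^ ((105 : ℝ) * (w + 1)) := by
    rw [Nat.cast_pow, ← Real.rpow_natCast]
    refine Real.rpow_le_rpow_of_exponent_le (by norm_num) ?_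
    push_cast
    have : (W : ℝ) ≤ w := Nat.floor_le hw0
    linarith
  generalize 2 ^ (105 * (W + 1)) = B at hG hBpow
  have hUcard : U.ncard ≤ Mset.card * ((⌊33 * Real.log X⌋₊ + 1) * B) := by
    rw [hU]
    refine (Finset.set_ncard_biUnion_le _ _).trans ?_
    refine (Finset.sum_le_card_nsmul _ _ ((⌊33 * Real.log X⌋₊ + 1) * B) fun m hm => ?_).trans
      (le_of_eq (smul_eq_mul _ _))
    refine (Finset.set_ncard_biUnion_le _ _).trans ?_
    refine (Finset.sum_le_card_nsmul _ _ B fun i _ => ?_).trans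
      (le_of_eq (by rw [Finset.card_range, smul_eq_mul]))
    exact (Set.ncard_image_le (hG m hm i).1).trans (hG m hm i).2
  have hMcard : (Mset.card : ℝ) ≤ X ^ (1 - (1 - 3 * δ) / 10) := by
    have h1 : Mset.card ≤ ⌊X ^ (1 - (1 - 3 * δ) / 10)⌋₊ := by
      rw [hM]
      refine (Finset.card_filter_le _ _).trans ?_
      rw [Nat.card_Icc]
      omega
    calc (Mset.card : ℝ) ≤ (⌊X ^ (1 - (1 - 3 * δ) / 10)⌋₊ : ℝ) := by exact_mod_cast h1
      _ ≤ X ^ (1 - (1 - 3 * δ) / 10) := Nat.floor_le (by positivity)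
  refine le_trans (b := (U.ncard : ℝ)) ?_ ?_
  · have hsub : RadSet X (fun a b => Real.log X ^ ((9 : ℝ) / 4) ≤ Real.log ((a + b : ℕ) : ℝ) ∧
        Real.log ((a + b : ℕ) : ℝ) ≤ X ^ δ ∧
        ∃ s ⊆ (N3 a b).primeFactors,
        ∑ p ∈ s, ((N3 a b).factorization p : ℝ) * Real.log p ≤
          7 / 8 * Real.log ((a + b : ℕ) : ℝ) ∧
        (1 - 3 * δ) / 10 * ∑ p ∈ (N3 a b).primeFactors, Real.log p ≤ ∑ p ∈ s, Real.log p) ⊆ U := by
      intro R hR
      obtain ⟨m, hm, i, hi, hRi⟩ := cover δ X hδ0 hδ hX3 hT R hR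
      rw [hU]
      simp only [Set.mem_iUnion]
      exact ⟨m, hm, i, hi, hRi⟩
    exact_mod_cast Set.ncard_le_ncard hsub hUfin
  · have hfl : ((⌊33 * Real.log X⌋₊ + 1 : ℕ) : ℝ) ≤ 33 * Real.log X + 1 := by
      push_cast
      have : (⌊33 * Real.log X⌋₊ : ℝ) ≤ 33 * Real.log X := Nat.floor_le (by linarith)
      linarith
    calc (U.ncard : ℝ) ≤ ((Mset.card * ((⌊33 * Real.log X⌋₊ + 1) * B) : ℕ) : ℝ) := by
          exact_mod_cast hUcard
      _ = (Mset.card : ℝ) * (((⌊33 * Real.log X⌋₊ + 1 : ℕ) : ℝ) *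
            (B : ℝ)) := by
          rw [Nat.cast_mul, Nat.cast_mul]
      _ ≤ X ^ (1 - (1 - 3 * δ) / 10) * ((33 * Real.log X + 1) *
            (2 : ℝ) ^ ((105 : ℝ) * (w + 1))) := by
          refine mul_le_mul hMcard ?_ (by positivity) (by positivity)
          refine mul_le_mul hfl hBpow (by positivity) (by linarith)
      _ ≤ X ^ (1 - (1 - 3 * δ) / 10) * X ^ ((1 - 3 * δ) / 110) :=
          mul_le_mul_of_nonneg_left hfin (by positivity)
      _ = X ^ (1 - (1 - 3 * δ) / 11) := by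
          rw [← Real.rpow_add hXpos]; congr 1; ring

end

end Pool.Agent.W291.RA.FL
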